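import Mathlib.Order.Filter.Ultrafilter.Basic
import Mathlib.Order.Filter.AtTopBot.Basic
import Mathlib.Data.Nat.Log
import Mathlib.Tactic.Linarith

/-!
Slowly growing functions which are locally constant along a nonprincipal ultrafilter.
-/

set_option autoImplicit false

open Filter

namespace Pool.Agent.Q92.DTC

/-- half of the logarithm, rounded in one of two ways -/
def tau (ε m : ℕ) : ℕ := (Nat.log 2 m + ε) / 2

lemma tau_mono (ε : ℕ) : Monotone (tau ε) := fun a b hab =>
  Nat.div_le_div_right (Nat.add_le_add_right (Nat.log_mono_right hab) ε)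

lemma tau_tendsto (ε : ℕ) : Tendsto (tau ε) atTop atTop := by
  refine tendsto_atTop_atTop_of_monotone (tau_mono ε) ?_
  intro b
  refine ⟨2 ^ (2 * b), ?_⟩
  unfold tau
  rw [Nat.log_pow (by norm_num)]
  omega

/-- between two numbers with different values of `tau` there is a power of two -/
lemma exists_pow {ε m m' : ℕ} (hm : m < m') (h : tau ε m ≠ tau ε m') :
    ∃ q, (q + ε) % 2 = 0 ∧ m < 2 ^ q ∧ 2 ^ q ≤ m' := by
  have h1 : tau ε m < tau ε m' := lt_of_le_of_ne (tau_mono ε hm.le) h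
  unfold tau at h1
  have hm' : m' ≠ 0 := by omega
  have hlt : ∀ q, Nat.log 2 m < q → m < 2 ^ q := fun q hq =>
    (Nat.lt_pow_succ_log_self (by norm_num) m).trans_le
      (Nat.pow_le_pow_right (by norm_num) hq)
  by_cases hp : (Nat.log 2 m' + ε) % 2 = 0
  · exact ⟨Nat.log 2 m', hp, hlt _ (by omega), Nat.pow_log_le_self 2 hm'⟩
  · have hlog : 1 ≤ Nat.log 2 m' := by omega
    exact ⟨Nat.log 2 m' - 1, by omega, hlt _ (by omega),
      (Nat.pow_le_pow_right (by norm_num) (by omega)).trans (Nat.pow_log_le_self 2 hm')⟩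

/-- two numbers with different values of `tau` which are close to each other are close to a power
of two -/
lemma exists_pow' {ε d m m' : ℕ} (h1 : m' ≤ m + d) (h2 : m ≤ m' + d) (h : tau ε m' ≠ tau ε m) :
    ∃ q, (q + ε) % 2 = 0 ∧ m ≤ 2 ^ q + d ∧ 2 ^ q ≤ m + d := by
  rcases lt_trichotomy m m' with hlt | heq | hlt
  · obtain ⟨q, hq, h3, h4⟩ := exists_pow hlt h.symm
    exact ⟨q, hq, by omega, by omega⟩
  · exact absurd (by rw [heq]) h
  · obtain ⟨q, hq, h3, h4⟩ := exists_pow hlt h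
    exact ⟨q, hq, by omega, by omega⟩

/-- The existence of the slowly growing functions. -/
lemma exists_tau (w : Ultrafilter ℕ) (hw : (w : Filter ℕ) ≤ atTop) :
    ∃ τ : ℕ → ℕ, Tendsto τ w atTop ∧
      ∀ d, ∀ᶠ m in (w : Filter ℕ), ∀ m', m' ≤ m + d → m ≤ m' + d → τ m' = τ m := by
  by_cases h0 : ∀ d, ∀ᶠ m in (w : Filter ℕ), ∀ m', m' ≤ m + d → m ≤ m' + d → tau 0 m' = tau 0 m
  · exact ⟨tau 0, (tau_tendsto 0).mono_left hw, h0⟩
  · refine ⟨tau 1, (tau_tendsto 1).mono_left hw, ?_⟩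
    push Not at h0
    obtain ⟨d0, hd0⟩ := h0
    intro d
    filter_upwards [hd0, hw (eventually_gt_atTop (2 * (d + d0) + d + d0))] with m hm hm2
    intro m' h1 h2
    by_contra hcon
    obtain ⟨q, hq, h3, h4⟩ := exists_pow' h1 h2 hcon
    obtain ⟨m'', h5, h6, h7⟩ := hm
    obtain ⟨p, hp, h8, h9⟩ := exists_pow' h5 h6 h7
    have hpq : p ≠ q := by omega
    rcases lt_or_gt_of_ne hpq with h | h
    · have : 2 ^ (p + 1) ≤ 2 ^ q := Nat.pow_le_pow_right (by norm_num) h
      rw [pow_succ] at this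
      omega
    · have : 2 ^ (q + 1) ≤ 2 ^ p := Nat.pow_le_pow_right (by norm_num) h
      rw [pow_succ] at this
      omega

end Pool.Agent.Q92.DTC
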