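import Pool.Agent.Q92.DTC.Scan
import Pool.Agent.Q92.DTC.Tau
import Mathlib.Data.Set.Countable
import Mathlib.Algebra.Group.Conj

/-!
The restricted product of the dihedral groups has a one element DTC set.
-/

set_option autoImplicit false

open Filter Finset

namespace Pool.Agent.Q92.DTC

section Statement

variable {G : Type*} [Group G]

/-- The product `u □ v = {A : {x : x⁻¹ A ∈ v} ∈ u}`. -/
def box (u v : Ultrafilter G) : Set (Set G) :=
  {A | {x : G | (fun a => x⁻¹ * a) '' A ∈ v} ∈ u}

/-- The product `u ◇ v = {A : {x : A x⁻¹ ∈ u} ∈ v}`. -/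
def diamond (u v : Ultrafilter G) : Set (Set G) :=
  {A | {x : G | (fun a => a * x⁻¹) '' A ∈ u} ∈ v}

/-- All the conjugacy classes of `G` are finite. -/
def IsFC (G : Type*) [Group G] : Prop := ∀ g : G, {h : G | IsConj g h}.Finite

lemma mem_box {u v : Ultrafilter G} {A : Set G} :
    A ∈ box u v ↔ ∀ᶠ x in (u : Filter G), ∀ᶠ y in (v : Filter G), x * y ∈ A := by
  have : ∀ x : G, (fun a => x⁻¹ * a) '' A = {y | x * y ∈ A} := by
    intro x
    ext y
    constructor
    · rintro ⟨a, ha, rfl⟩
      simpa using ha
    · intro hy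
      exact ⟨x * y, hy, by simp⟩
  show {x : G | (fun a => x⁻¹ * a) '' A ∈ v} ∈ u ↔ _
  simp_rw [this]
  rfl

lemma mem_diamond {u v : Ultrafilter G} {A : Set G} :
    A ∈ diamond u v ↔ ∀ᶠ y in (v : Filter G), ∀ᶠ x in (u : Filter G), x * y ∈ A := by
  have : ∀ y : G, (fun a => a * y⁻¹) '' A = {x | x * y ∈ A} := by
    intro x
    ext y
    constructor
    · rintro ⟨a, ha, rfl⟩
      simpa using ha
    · intro hy
      exact ⟨y * x, hy, by simp⟩
  show {x : G | (fun a => a * x⁻¹) '' A ∈ u} ∈ v ↔ _
  simp_rw [this]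
  rfl

lemma box_ne_diamond {u v : Ultrafilter G} (A : Set G)
    (h1 : ∀ᶠ x in (u : Filter G), ∀ᶠ y in (v : Filter G), x * y ∈ A)
    (h2 : ∀ᶠ y in (v : Filter G), ∀ᶠ x in (u : Filter G), x * y ∉ A) :
    box u v ≠ diamond u v := by
  intro h
  have h3 : A ∈ diamond u v := by rw [← h]; exact mem_box.2 h1
  have h4 := (mem_diamond.1 h3).and h2
  obtain ⟨y, hy1, hy2⟩ := h4.exists
  obtain ⟨x, hx1, hx2⟩ := (hy1.and hy2).exists
  exact hx2 hx1

end Statement

/-- The restricted direct product of the dihedral groups. -/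
def RD : Subgroup (∀ i, DG i) where
  carrier := {x | ∃ m, ∀ i, m ≤ i → x i = 1}
  one_mem' := ⟨0, fun i _ => rfl⟩
  mul_mem' := by
    rintro a b ⟨m, hm⟩ ⟨n, hn⟩
    refine ⟨max m n, fun i hi => ?_⟩
    rw [Pi.mul_apply, hm i (le_trans (le_max_left _ _) hi), hn i (le_trans (le_max_right _ _) hi),
      one_mul]
  inv_mem' := by
    rintro a ⟨m, hm⟩
    exact ⟨m, fun i hi => by rw [Pi.inv_apply, hm i hi, inv_one]⟩

/-- a bound of the support -/
noncomputable def bd (x : RD) : ℕ := x.2.choose

lemma bd_spec (x : RD) : ∀ i, bd x ≤ i → (x : ∀ i, DG i) i = 1 := x.2.choose_spec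

/-- the blocks of an element -/
noncomputable def BB (x : RD) : Finset ℕ := bl x (bd x) 0

/-- the level where the scanning stops -/
noncomputable def SS (x : RD) : ℕ := stp x (bd x) 0

lemma BB_eq {x : RD} {m : ℕ} (hm : ∀ i, m ≤ i → (x : ∀ i, DG i) i = 1) : BB x = bl x m 0 := by
  unfold BB
  rw [← bl_ext (le_max_left (bd x) m) (bd_spec x), ← bl_ext (le_max_right (bd x) m) hm]

lemma SS_eq {x : RD} {m : ℕ} (hm : ∀ i, m ≤ i → (x : ∀ i, DG i) i = 1) : SS x = stp x m 0 := by
  unfold SS
  rw [← stp_ext (le_max_left (bd x) m) (bd_spec x), ← stp_ext (le_max_right (bd x) m) hm]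

lemma finite_supp (m : ℕ) : {x : RD | ∀ i, m ≤ i → (x : ∀ i, DG i) i = 1}.Finite := by
  have : Function.Injective (fun (x : {x : RD | ∀ i, m ≤ i → (x : ∀ i, DG i) i = 1})
      (i : Fin m) => (x : RD).1 (i : ℕ)) := by
    intro x y hxy
    apply Subtype.ext
    apply Subtype.ext
    funext i
    by_cases hi : i < m
    · exact congrFun hxy ⟨i, hi⟩
    · exact (x.2 i (not_lt.1 hi)).trans (y.2 i (not_lt.1 hi)).symm
  exact Finite.of_injective _ this

lemma isFC_RD : IsFC RD := by
  intro g
  refine (finite_supp (bd g)).subset ?_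
  rintro h hh i hi
  obtain ⟨c, hc⟩ := isConj_iff.1 hh
  rw [← hc]
  show (c : ∀ i, DG i) i * (g : ∀ i, DG i) i * ((c : ∀ i, DG i) i)⁻¹ = 1
  rw [bd_spec g i hi, mul_one, mul_inv_cancel]

lemma countable_RD : Countable RD := by
  have h : (Set.univ : Set RD) = ⋃ m, {x : RD | ∀ i, m ≤ i → (x : ∀ i, DG i) i = 1} := by
    symm
    rw [Set.eq_univ_iff_forall]
    intro x
    exact Set.mem_iUnion.2 ⟨bd x, bd_spec x⟩
  rw [← Set.countable_univ_iff, h]
  exact Set.countable_iUnion fun m => (finite_supp m).countable

/-- the elements of the sequence in the restricted product -/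
def yR (n : ℕ) : RD := ⟨yy n, n + 1, fun i hi => by
  unfold yy
  rw [if_neg (by omega), if_neg (by omega)]⟩

lemma yR_injective : Function.Injective yR := by
  intro m n h
  by_contra hmn
  wlog hlt : m < n generalizing m n with H
  · exact H h.symm (Ne.symm hmn) (by omega)
  have h1 : yy m n = yy n n := congrFun (congrArg Subtype.val h) n
  unfold yy at h1
  rw [if_neg (by omega), if_neg (by omega), if_neg (by omega), if_pos rfl] at h1
  exact nomatch h1

lemma infinite_RD : Infinite RD := Infinite.of_injective yR yR_injective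

/-- the ultrafilter -/
noncomputable def vv : Ultrafilter RD := (hyperfilter ℕ).map yR

lemma eventually_vv {p : RD → Prop} (h : ∀ᶠ n in atTop, p (yR n)) :
    ∀ᶠ y in (vv : Filter RD), p y := by
  have h1 : ∀ᶠ n in (hyperfilter ℕ : Filter ℕ), p (yR n) := Nat.hyperfilter_le_atTop h
  exact h1

lemma BB_first (x : RD) {n : ℕ} (hn : bd x ≤ n) :
    BB (x * yR n) = insert n (BB x) ∧ n ∉ BB x := by
  have hz : ∀ i, ((x * yR n : RD) : ∀ i, DG i) i = (x : ∀ i, DG i) i * yy n i := fun i => rfl
  have hx : ∀ i, n ≤ i → (x : ∀ i, DG i) i = 1 := fun i hi => bd_spec x i (hn.trans hi)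
  have hz1 : ∀ i, n + 1 ≤ i → ((x * yR n : RD) : ∀ i, DG i) i = 1 := by
    intro i hi
    rw [hz, hx i (by omega)]
    unfold yy
    rw [if_neg (by omega), if_neg (by omega), one_mul]
  constructor
  · rw [BB_eq hz1, BB_eq hx]
    exact bl_first (Nat.lt_succ_self n) hx hz
  · rw [BB_eq hx]
    intro h
    exact lt_irrefl _ (bl_subset _ _ _ _ h)

/-- a common bound -/
lemma exists_bound (x : RD) (n : ℕ) : ∃ K, n < K ∧ (∀ i, K ≤ i → (x : ∀ i, DG i) i = 1) ∧
    (∀ i, K ≤ i → ((x * yR n : RD) : ∀ i, DG i) i = 1) := by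
  refine ⟨max (bd x) (max (bd (x * yR n)) (n + 1)), ?_, ?_, ?_⟩
  · omega
  · intro i hi
    exact bd_spec x i (by omega)
  · intro i hi
    exact bd_spec _ i (by omega)

lemma mul_above (x : RD) (n : ℕ) : ∀ i, n < i →
    ((x * yR n : RD) : ∀ i, DG i) i = (x : ∀ i, DG i) i := by
  intro i hi
  show (x : ∀ i, DG i) i * yy n i = _
  unfold yy
  rw [if_neg (by omega), if_neg (by omega), mul_one]

lemma mul_at (x : RD) (n : ℕ) :
    ((x * yR n : RD) : ∀ i, DG i) n = (x : ∀ i, DG i) n * .sr 0 := by
  show (x : ∀ i, DG i) n * yy n n = _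
  unfold yy
  rw [if_neg (by omega), if_pos rfl]

lemma BB_stop (x : RD) {n : ℕ} (h : n + 1 < SS x) : BB (x * yR n) = BB x := by
  obtain ⟨K, hK, h1, h2⟩ := exists_bound x n
  rw [SS_eq h1] at h
  rw [BB_eq h1, BB_eq h2]
  exact bl_stop (mul_above x n) K 0 h

lemma BB_filter (x : RD) (n : ℕ) :
    (BB (x * yR n)).filter (n < ·) = (BB x).filter (n < ·) := by
  obtain ⟨K, hK, h1, h2⟩ := exists_bound x n
  rw [BB_eq h1, BB_eq h2]
  exact bl_filter (mul_above x n) K 0

lemma BB_cut (x : RD) {n : ℕ} (h : SS x ≤ n) (hn : n ∉ BB x) (h1 : 2 * (BB x).card < n + 1)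
    (h2 : 0 < ((BB x).filter (n < ·)).card) : (BB (x * yR n)).card ≤ (BB x).card := by
  obtain ⟨K, hK, h3, h4⟩ := exists_bound x n
  rw [SS_eq h3] at h
  rw [BB_eq h3] at hn h1 h2 ⊢
  rw [BB_eq h4, bl_cut (mul_above x n) (mul_at x n) K 0 hK h hn (by omega) (by omega)]
  exact card_filter_le _ _

lemma card_le_filter_add (B : Finset ℕ) (n : ℕ) : B.card ≤ (B.filter (n < ·)).card + (n + 1) := by
  have h1 := Finset.card_filter_add_card_filter_not (s := B) (fun m => n < m)
  have h2 : (B.filter (fun m => ¬ n < m)) ⊆ Finset.range (n + 1) := by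
    intro m hm
    rw [mem_filter] at hm
    rw [mem_range]
    omega
  have h3 := card_le_card h2
  rw [card_range] at h3
  omega

/-- The theorem. -/
theorem box_ne (u : Ultrafilter RD) (hu : ∀ x, u ≠ pure x) : box u vv ≠ diamond u vv := by
  have huc : (u : Filter RD) ≤ cofinite := by
    rcases u.le_cofinite_or_eq_pure with h | ⟨x, hx⟩
    · exact h
    · exact absurd hx (hu x)
  by_cases hS : ∃ N, ∀ᶠ x in (u : Filter RD), SS x ≤ N
  · obtain ⟨N, hN⟩ := hS
    by_cases hk : ∃ k, ∀ᶠ x in (u : Filter RD), (BB x).card = k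
    · -- the number of blocks is constant
      obtain ⟨k, hk⟩ := hk
      refine box_ne_diamond {z | (BB z).card = k + 1} ?_ ?_
      · filter_upwards [hk] with x hx
        apply eventually_vv
        filter_upwards [eventually_ge_atTop (bd x)] with n hn
        obtain ⟨h1, h2⟩ := BB_first x hn
        show (BB (x * yR n)).card = k + 1
        rw [h1, card_insert_of_notMem h2, hx]
      · apply eventually_vv
        -- the positions which are blocks almost everywhere
        have hL : ∀ᶠ n in atTop, ∀ᶠ x in (u : Filter RD), n ∉ BB x := by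
          have hfin : {n | ∀ᶠ x in (u : Filter RD), n ∈ BB x}.Finite := by
            by_contra hinf
            obtain ⟨F, hF, hFc⟩ := Set.Infinite.exists_subset_card_eq hinf (k + 1)
            have h1 : ∀ᶠ x in (u : Filter RD), ∀ n ∈ F, n ∈ BB x :=
              (Filter.eventually_all_finset F).2 fun n hn => hF hn
            obtain ⟨x, hx1, hx2⟩ := (h1.and hk).exists
            have h2 := card_le_card (show F ⊆ BB x from hx1)
            omega
          have h2 : {n | ∀ᶠ x in (u : Filter RD), n ∈ BB x}ᶜ ∈ atTop := by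
            rw [← Nat.cofinite_eq_atTop]
            exact hfin.compl_mem_cofinite
          filter_upwards [h2] with n hn
          exact Ultrafilter.eventually_not.2 hn
        filter_upwards [hL, eventually_ge_atTop N, eventually_ge_atTop (2 * k)] with n hn1 hn2 hn3
        have hsupp : ∀ᶠ x : RD in (u : Filter RD), ¬ (∀ i, n + 1 ≤ i → (x : ∀ i, DG i) i = 1) :=
          huc (finite_supp (n + 1)).compl_mem_cofinite
        filter_upwards [hn1, hN, hk, hsupp] with x hx1 hx2 hx3 hx4
        show ¬ (BB (x * yR n)).card = k + 1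
        have hne : 0 < ((BB x).filter (n < ·)).card := by
          rw [card_pos, nonempty_iff_ne_empty]
          intro he
          apply hx4
          intro i hi
          by_cases hib : i < bd x
          · exact supp_of_no_block (bd x) ((hx2.trans hn2).trans (Nat.le_succ n)) he i
              (by omega) hib
          · exact bd_spec x i (not_lt.1 hib)
        have := BB_cut x (hx2.trans hn2) hx1 (by omega) hne
        omega
    · -- the number of blocks tends to infinity
      have hcard : Tendsto (fun x => (BB x).card) (u : Filter RD) atTop := by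
        rw [tendsto_atTop]
        intro b
        by_contra hcon
        have h1 : ∀ᶠ x in (u : Filter RD), (BB x).card < b := by
          have := Ultrafilter.eventually_not.2 hcon
          filter_upwards [this] with x hx
          omega
        have h2 : ∀ᶠ x in (u : Filter RD), ∀ k ∈ Finset.range b, (BB x).card ≠ k :=
          (Filter.eventually_all_finset _).2 fun k _ =>
            Ultrafilter.eventually_not.2 fun h => hk ⟨k, h⟩
        obtain ⟨x, hx1, hx2⟩ := (h1.and h2).exists
        exact hx2 _ (mem_range.2 hx1) rfl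
      obtain ⟨τ, hτ1, hτ2⟩ := exists_tau (u.map (fun x => (BB x).card)) hcard
      have hτ1' : Tendsto (fun x => τ (BB x).card) (u : Filter RD) atTop := hτ1
      have hτ2' : ∀ d, ∀ᶠ x in (u : Filter RD), ∀ m', m' ≤ (BB x).card + d →
          (BB x).card ≤ m' + d → τ m' = τ (BB x).card := fun d => hτ2 d
      let q : RD → ℕ := fun x => ((BB x).filter (τ (BB x).card < ·)).card
      obtain ⟨ε, hε⟩ : ∃ ε, ∀ᶠ x in (u : Filter RD), q x % 2 = ε := by
        by_cases h : ∀ᶠ x in (u : Filter RD), q x % 2 = 0
        · exact ⟨0, h⟩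
        · refine ⟨1, ?_⟩
          filter_upwards [Ultrafilter.eventually_not.2 h] with x hx
          omega
      refine box_ne_diamond {z | q z % 2 ≠ ε} ?_ ?_
      · filter_upwards [hε, hτ2' 1] with x hx hx2
        apply eventually_vv
        filter_upwards [eventually_ge_atTop (bd x), eventually_gt_atTop (τ (BB x).card)]
          with n hn hn2
        obtain ⟨h1, h2⟩ := BB_first x hn
        show q (x * yR n) % 2 ≠ ε
        have h3 : (BB (x * yR n)).card = (BB x).card + 1 := by
          rw [h1, card_insert_of_notMem h2]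
        have h4 : τ (BB (x * yR n)).card = τ (BB x).card := hx2 _ (by omega) (by omega)
        have h5 : q (x * yR n) = q x + 1 := by
          show ((BB (x * yR n)).filter (τ (BB (x * yR n)).card < ·)).card = _
          rw [h4, h1, filter_insert, if_pos hn2, card_insert_of_notMem]
          intro h6
          exact h2 (mem_filter.1 h6).1
        omega
      · apply eventually_vv
        refine Eventually.of_forall fun n => ?_
        filter_upwards [hε, hτ2' (n + 1), hτ1'.eventually_gt_atTop n] with x hx hx2 hx3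
        show ¬ (q (x * yR n) % 2 ≠ ε)
        rw [not_not]
        have h0 := BB_filter x n
        have h1 := card_le_filter_add (BB x) n
        have h2 := card_le_filter_add (BB (x * yR n)) n
        have h3 := card_filter_le (BB x) (n < ·)
        have h4 := card_filter_le (BB (x * yR n)) (n < ·)
        rw [h0] at h2 h4
        have h5 : τ (BB (x * yR n)).card = τ (BB x).card := hx2 _ (by omega) (by omega)
        have h6 : ∀ B : Finset ℕ, B.filter (τ (BB x).card < ·) =
            (B.filter (n < ·)).filter (τ (BB x).card < ·) := by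
          intro B
          rw [filter_filter]
          apply filter_congr
          intro m _
          constructor
          · intro h; exact ⟨by omega, h⟩
          · intro h; exact h.2
        have h7 : q (x * yR n) = q x := by
          show ((BB (x * yR n)).filter (τ (BB (x * yR n)).card < ·)).card =
            ((BB x).filter (τ (BB x).card < ·)).card
          rw [h5, h6, h0, ← h6]
        rw [h7, hx]
  · -- the scanning stops at arbitrarily high levels
    have hS' : ∀ N, ∀ᶠ x in (u : Filter RD), N < SS x := by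
      intro N
      by_contra hcon
      apply hS
      refine ⟨N, ?_⟩
      filter_upwards [Ultrafilter.eventually_not.2 hcon] with x hx
      omega
    obtain ⟨ε, hε⟩ : ∃ ε, ∀ᶠ x in (u : Filter RD), (BB x).card % 2 = ε := by
      by_cases h : ∀ᶠ x in (u : Filter RD), (BB x).card % 2 = 0
      · exact ⟨0, h⟩
      · refine ⟨1, ?_⟩
        filter_upwards [Ultrafilter.eventually_not.2 h] with x hx
        omega
    refine box_ne_diamond {z | (BB z).card % 2 ≠ ε} ?_ ?_
    · filter_upwards [hε] with x hx
      apply eventually_vv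
      filter_upwards [eventually_ge_atTop (bd x)] with n hn
      obtain ⟨h1, h2⟩ := BB_first x hn
      show (BB (x * yR n)).card % 2 ≠ ε
      rw [h1, card_insert_of_notMem h2]
      omega
    · apply eventually_vv
      refine Eventually.of_forall fun n => ?_
      filter_upwards [hε, hS' (n + 1)] with x hx hx2
      show ¬ ((BB (x * yR n)).card % 2 ≠ ε)
      rw [not_not, BB_stop x hx2, hx]

end Pool.Agent.Q92.DTC
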