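import Mathlib.GroupTheory.SpecificGroups.Dihedral
import Mathlib.Data.Finset.Card
import Mathlib.Tactic.LinearCombination
import Mathlib.Tactic.Ring

/-!
Scanning the elements of the product of the dihedral groups from the top.
-/

set_option autoImplicit false

open Finset

namespace Pool.Agent.Q92.DTC

/-- The dihedral group with `2 (i + 1)` elements. -/
abbrev DG (i : ℕ) : Type := DihedralGroup (i + 1)

/-- The positions of the blocks found below the level `k`, if `j` blocks were found above. -/
def bl (x : ∀ i, DG i) : ℕ → ℕ → Finset ℕ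
  | 0, _ => ∅
  | k + 1, j =>
    if x k = .r (j : ZMod (k + 1)) then bl x k j
    else if x k = .sr (j : ZMod (k + 1)) then insert k (bl x k (j + 1))
    else ∅

/-- The level where the scanning stops. -/
def stp (x : ∀ i, DG i) : ℕ → ℕ → ℕ
  | 0, _ => 0
  | k + 1, j =>
    if x k = .r (j : ZMod (k + 1)) then stp x k j
    else if x k = .sr (j : ZMod (k + 1)) then stp x k (j + 1)
    else k + 1

/-- the elements of the sequence -/
def yy (n : ℕ) : ∀ i, DG i := fun i =>
  if i < n then .r 1 else if i = n then .sr 0 else 1

lemma bl_subset (x : ∀ i, DG i) (k j : ℕ) : ∀ m ∈ bl x k j, m < k := by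
  induction k generalizing j with
  | zero => intro m hm; simp [bl] at hm
  | succ k ih =>
    intro m hm
    unfold bl at hm
    split_ifs at hm with h1 h2
    · exact (ih j m hm).trans (Nat.lt_succ_self k)
    · rcases mem_insert.1 hm with h | h
      · omega
      · exact (ih (j + 1) m h).trans (Nat.lt_succ_self k)
    · simp at hm

lemma stp_le (x : ∀ i, DG i) (k j : ℕ) : stp x k j ≤ k := by
  induction k generalizing j with
  | zero => exact le_rfl
  | succ k ih =>
    unfold stp
    split_ifs
    · exact (ih j).trans (Nat.le_succ k)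
    · exact (ih (j + 1)).trans (Nat.le_succ k)
    · exact le_rfl

lemma card_insert_bl (x : ∀ i, DG i) (k j : ℕ) :
    (insert k (bl x k j)).card = (bl x k j).card + 1 := by
  apply card_insert_of_notMem
  intro h
  exact lt_irrefl _ (bl_subset x k j k h)

/-- Coordinates equal to one above a level are ignored. -/
lemma bl_ext {x : ∀ i, DG i} {m K : ℕ} (hK : m ≤ K) (hx : ∀ i, m ≤ i → x i = 1) :
    bl x K 0 = bl x m 0 := by
  induction K, hK using Nat.le_induction with
  | base => rfl
  | succ k hk ih =>
    rw [← ih]
    have h1 : x k = .r ((0 : ℕ) : ZMod (k + 1)) := by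
      rw [hx k hk, Nat.cast_zero, DihedralGroup.r_zero]
    conv_lhs => unfold bl
    rw [if_pos h1]

lemma stp_ext {x : ∀ i, DG i} {m K : ℕ} (hK : m ≤ K) (hx : ∀ i, m ≤ i → x i = 1) :
    stp x K 0 = stp x m 0 := by
  induction K, hK using Nat.le_induction with
  | base => rfl
  | succ k hk ih =>
    rw [← ih]
    have h1 : x k = .r ((0 : ℕ) : ZMod (k + 1)) := by
      rw [hx k hk, Nat.cast_zero, DihedralGroup.r_zero]
    conv_lhs => unfold stp
    rw [if_pos h1]

/-- Multiplication by the rotations shifts the state. -/
lemma bl_shift {x z : ∀ i, DG i} {k : ℕ} (hz : ∀ i, i < k → z i = x i * .r 1) (j : ℕ) :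
    bl z k (j + 1) = bl x k j := by
  induction k generalizing j with
  | zero => rfl
  | succ k ih =>
    have hk := hz k (Nat.lt_succ_self k)
    have ih' := ih (fun i hi => hz i (hi.trans (Nat.lt_succ_self k)))
    have e1 : (z k = .r ((j + 1 : ℕ) : ZMod (k + 1))) ↔ (x k = .r ((j : ℕ) : ZMod (k + 1))) := by
      rw [hk]
      cases x k with
      | r a => simp
      | sr a => simp
    have e2 : (z k = .sr ((j + 1 : ℕ) : ZMod (k + 1))) ↔ (x k = .sr ((j : ℕ) : ZMod (k + 1))) := by
      rw [hk]
      cases x k with
      | r a => simp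
      | sr a => simp
    unfold bl
    by_cases h1 : x k = .r ((j : ℕ) : ZMod (k + 1))
    · rw [if_pos h1, if_pos (e1.2 h1), ih']
    · rw [if_neg h1, if_neg (fun h => h1 (e1.1 h))]
      by_cases h2 : x k = .sr ((j : ℕ) : ZMod (k + 1))
      · rw [if_pos h2, if_pos (e2.2 h2), ih']
      · rw [if_neg h2, if_neg (fun h => h2 (e2.1 h))]

/-- The first kind of products. -/
lemma bl_first {x z : ∀ i, DG i} {n K : ℕ} (hK : n < K) (hx : ∀ i, n ≤ i → x i = 1)
    (hz : ∀ i, z i = x i * yy n i) : bl z K 0 = insert n (bl x n 0) := by
  have hz1 : ∀ i, n + 1 ≤ i → z i = 1 := by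
    intro i hi
    rw [hz, hx i (by omega)]
    unfold yy
    rw [if_neg (by omega), if_neg (by omega), one_mul]
  have hz2 : ∀ i, i < n → z i = x i * .r 1 := by
    intro i hi
    rw [hz]
    unfold yy
    rw [if_pos hi]
  have hz3 : z n = .sr ((0 : ℕ) : ZMod (n + 1)) := by
    rw [hz, hx n le_rfl]
    unfold yy
    rw [if_neg (lt_irrefl _), if_pos rfl, one_mul, Nat.cast_zero]
  rw [bl_ext (m := n + 1) hK hz1]
  conv_lhs => unfold bl
  rw [if_neg (by rw [hz3]; exact fun h => nomatch h), if_pos hz3, bl_shift hz2]

/-- The blocks above the level `n` are the same. -/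
lemma bl_filter {x z : ∀ i, DG i} {n : ℕ} (hz : ∀ i, n < i → z i = x i) (K j : ℕ) :
    (bl z K j).filter (n < ·) = (bl x K j).filter (n < ·) := by
  induction K generalizing j with
  | zero => rfl
  | succ k ih =>
    by_cases hk : n < k
    · have hk' := hz k hk
      unfold bl
      rw [hk']
      split_ifs
      · exact ih j
      · rw [filter_insert, filter_insert, if_pos hk, if_pos hk, ih (j + 1)]
      · rfl
    · have h1 : ∀ w : ∀ i, DG i, (bl w (k + 1) j).filter (n < ·) = ∅ := by
        intro w
        rw [filter_eq_empty_iff]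
        intro m hm
        have := bl_subset w (k + 1) j m hm
        omega
      rw [h1, h1]

/-- The scanning stops above the level `n`. -/
lemma bl_stop {x z : ∀ i, DG i} {n : ℕ} (hz : ∀ i, n < i → z i = x i) (K j : ℕ)
    (hs : n + 1 < stp x K j) : bl z K j = bl x K j := by
  induction K generalizing j with
  | zero => exact absurd hs (by unfold stp; omega)
  | succ k ih =>
    have hk : n < k := by
      have := stp_le x (k + 1) j
      omega
    have hk' := hz k hk
    unfold bl
    unfold stp at hs
    rw [hk']
    split_ifs at hs ⊢ with h1 h2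
    · exact ih j hs
    · rw [ih (j + 1) hs]
    · rfl

/-- The blocks below `n` disappear. -/
lemma bl_cut {x z : ∀ i, DG i} {n : ℕ} (hz : ∀ i, n < i → z i = x i)
    (hzn : z n = x n * .sr 0) (K j : ℕ) (hK : n < K) (hs : stp x K j ≤ n) (hn : n ∉ bl x K j)
    (h1 : 2 * (j + (bl x K j).card) < n + 1)
    (h2 : 0 < j + ((bl x K j).filter (n < ·)).card) :
    bl z K j = (bl x K j).filter (n < ·) := by
  induction K generalizing j with
  | zero => exact absurd hK (by omega)
  | succ k ih =>
    rcases Nat.lt_succ_iff_lt_or_eq.1 hK with hk | hk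
    · have hk' := hz k hk
      unfold bl at hn h1 h2 ⊢
      unfold stp at hs
      rw [hk']
      split_ifs at hs hn h1 h2 ⊢ with h3 h4
      · exact ih j hk hs hn h1 h2
      · have h5 := ih (j + 1) hk hs (fun h => hn (mem_insert_of_mem h))
          (by rw [card_insert_bl] at h1; omega) (by omega)
        rw [h5, filter_insert, if_pos hk]
      · omega
    · subst hk
      have e1 : ((bl x n j).filter (n < ·)) = ∅ := by
        rw [filter_eq_empty_iff]
        intro m hm
        have := bl_subset x n j m hm
        omega
      have e2 : ((bl x (n + 1) j).filter (n < ·)) = ∅ := by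
        rw [filter_eq_empty_iff]
        intro m hm
        have := bl_subset x (n + 1) j m hm
        omega
      rw [e2] at h2 ⊢
      rw [card_empty] at h2
      have h3 : x n = .r (j : ZMod (n + 1)) := by
        by_contra h3
        unfold stp at hs
        unfold bl at hn
        rw [if_neg h3] at hs hn
        by_cases h4 : x n = .sr (j : ZMod (n + 1))
        · rw [if_pos h4] at hn
          exact hn (mem_insert_self _ _)
        · rw [if_neg h4] at hs
          omega
      unfold bl
      rw [hzn, h3]
      have h5 : (DihedralGroup.r (j : ZMod (n + 1)) * .sr 0 : DG n) = .sr (-(j : ZMod (n + 1))) := by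
        simp
      have h6 : (DihedralGroup.sr (-(j : ZMod (n + 1))) : DG n) ≠ .sr (j : ZMod (n + 1)) := by
        intro h6
        have h7 : -(j : ZMod (n + 1)) = (j : ZMod (n + 1)) := by simpa using h6
        have h8 : ((2 * j : ℕ) : ZMod (n + 1)) = 0 := by
          push_cast
          linear_combination (-1 : ZMod (n + 1)) * h7
        rw [ZMod.natCast_eq_zero_iff] at h8
        have h9 := Nat.le_of_dvd (by omega) h8
        omega
      rw [h5, if_neg (by simp), if_neg h6]

/-- If there are no blocks above `n` and the scanning does not stop above `n` then the element is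
supported below `n`. -/
lemma supp_of_no_block {x : ∀ i, DG i} {n : ℕ} (K : ℕ) (hs : stp x K 0 ≤ n + 1)
    (hb : (bl x K 0).filter (n < ·) = ∅) : ∀ i, n < i → i < K → x i = 1 := by
  induction K with
  | zero => intro i _ hi; omega
  | succ k ih =>
    intro i hi hik
    have hnk : n < k ∨ k ≤ n := lt_or_ge n k
    rcases hnk with hnk | hnk
    · unfold stp at hs
      unfold bl at hb
      split_ifs at hs hb with h1 h2
      · rcases Nat.lt_succ_iff_lt_or_eq.1 hik with h | h
        · exact ih hs hb i hi h
        · subst h
          rw [h1, Nat.cast_zero, DihedralGroup.r_zero]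
      · rw [filter_insert, if_pos hnk] at hb
        exact absurd hb (insert_ne_empty _ _)
      · omega
    · omega

end Pool.Agent.Q92.DTC
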